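import Pool.Agent.Helper2.EC_C.Goals

/-!
# MP_ecc237_nt (S18871), PART C: basic lemmas on Lambert series
-/

set_option autoImplicit false

open MeasureTheory Filter Topology Set

namespace ECC

open EC237

/-! ### polynomial growth -/

theorem PG.of_bdd {f : ℕ → ℕ → ℝ} {C : ℝ} (h : ∀ M ν, 1 ≤ M → 1 ≤ ν → |f M ν| ≤ C) : PG f :=
  ⟨C, 0, fun M ν hM hν => by simpa using h M ν hM hν⟩

theorem PG.const (c : ℝ) : PG (fun _ _ => c) := PG.of_bdd (C := |c|) (fun _ _ _ _ => le_rfl)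

theorem PG.nonneg_form {f : ℕ → ℕ → ℝ} (h : PG f) : ∃ C : ℝ, 0 ≤ C ∧ ∃ k : ℕ,
    ∀ M ν : ℕ, 1 ≤ M → 1 ≤ ν → |f M ν| ≤ C * ((M : ℝ) * (ν : ℝ)) ^ k := by
  obtain ⟨C, k, h⟩ := h
  refine ⟨|C|, abs_nonneg C, k, fun M ν hM hν => (h M ν hM hν).trans ?_⟩
  exact mul_le_mul_of_nonneg_right (le_abs_self C) (by positivity)

theorem PG.mono_exp {f : ℕ → ℕ → ℝ} {C : ℝ} {k : ℕ} (hC : 0 ≤ C)
    (h : ∀ M ν : ℕ, 1 ≤ M → 1 ≤ ν → |f M ν| ≤ C * ((M : ℝ) * (ν : ℝ)) ^ k) {l : ℕ} (hl : k ≤ l)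
    (M ν : ℕ) (hM : 1 ≤ M) (hν : 1 ≤ ν) : |f M ν| ≤ C * ((M : ℝ) * (ν : ℝ)) ^ l := by
  refine (h M ν hM hν).trans (mul_le_mul_of_nonneg_left ?_ hC)
  refine pow_le_pow_right₀ ?_ hl
  have h1 : (1:ℝ) ≤ M := by exact_mod_cast hM
  have h2 : (1:ℝ) ≤ ν := by exact_mod_cast hν
  nlinarith

theorem PG.add {f g : ℕ → ℕ → ℝ} (hf : PG f) (hg : PG g) : PG (fun M ν => f M ν + g M ν) := by
  obtain ⟨C, hC, k, hf⟩ := hf.nonneg_form
  obtain ⟨D, hD, l, hg⟩ := hg.nonneg_form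
  refine ⟨C + D, max k l, fun M ν hM hν => ?_⟩
  refine (abs_add_le _ _).trans ?_
  rw [add_mul]
  exact add_le_add (PG.mono_exp hC hf (le_max_left _ _) M ν hM hν)
    (PG.mono_exp hD hg (le_max_right _ _) M ν hM hν)

theorem PG.mul {f g : ℕ → ℕ → ℝ} (hf : PG f) (hg : PG g) : PG (fun M ν => f M ν * g M ν) := by
  obtain ⟨C, hC, k, hf⟩ := hf.nonneg_form
  obtain ⟨D, hD, l, hg⟩ := hg.nonneg_form
  refine ⟨C * D, k + l, fun M ν hM hν => ?_⟩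
  rw [abs_mul, pow_add]
  calc |f M ν| * |g M ν| ≤ (C * ((M : ℝ) * (ν : ℝ)) ^ k) * (D * ((M : ℝ) * (ν : ℝ)) ^ l) :=
        mul_le_mul (hf M ν hM hν) (hg M ν hM hν) (abs_nonneg _) (by positivity)
    _ = C * D * (((M : ℝ) * (ν : ℝ)) ^ k * ((M : ℝ) * (ν : ℝ)) ^ l) := by ring

theorem PG.neg {f : ℕ → ℕ → ℝ} (hf : PG f) : PG (fun M ν => -f M ν) := by
  obtain ⟨C, k, hf⟩ := hf
  exact ⟨C, k, fun M ν hM hν => by rw [abs_neg]; exact hf M ν hM hν⟩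

theorem PG.sub {f g : ℕ → ℕ → ℝ} (hf : PG f) (hg : PG g) : PG (fun M ν => f M ν - g M ν) := by
  simpa only [sub_eq_add_neg] using hf.add hg.neg

theorem PG.M : PG (fun M _ => (M:ℝ)) := ⟨1, 1, fun M ν hM hν => by
  have h2 : (1:ℝ) ≤ ν := by exact_mod_cast hν
  have h1 : (0:ℝ) ≤ M := by positivity
  rw [abs_of_nonneg h1, one_mul, pow_one]; nlinarith⟩

theorem PG.N : PG (fun _ ν => (ν:ℝ)) := ⟨1, 1, fun M ν hM hν => by
  have h2 : (1:ℝ) ≤ M := by exact_mod_cast hM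
  have h1 : (0:ℝ) ≤ ν := by positivity
  rw [abs_of_nonneg h1, one_mul, pow_one]; nlinarith⟩

theorem PG.pow {f : ℕ → ℕ → ℝ} (hf : PG f) : ∀ n : ℕ, PG (fun M ν => f M ν ^ n)
  | 0 => by simpa using PG.const 1
  | n + 1 => by simpa only [pow_succ] using (PG.pow hf n).mul hf

theorem abs_chi_le (n : ℤ) : |chi n| ≤ 1 := by
  unfold chi; split_ifs <;> simp

theorem abs_e3_le (n : ℤ) : |e3 n| ≤ 1 := by
  unfold e3; split_ifs <;> norm_num [abs_le]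

theorem abs_e6_le (n : ℤ) : |e6 n| ≤ 1 := by
  unfold e6; split_ifs <;> norm_num [abs_le]

theorem abs_psi_le (n : ℤ) : |psi n| ≤ 1 := by
  unfold psi; split_ifs <;> norm_num

theorem PG.chi : PG (fun M _ => EC237.chi (M:ℤ)) := PG.of_bdd (fun M _ _ _ => abs_chi_le M)
theorem PG.e3 : PG (fun M _ => ECC.e3 (M:ℤ)) := PG.of_bdd (fun M _ _ _ => abs_e3_le M)
theorem PG.e6 : PG (fun M _ => ECC.e6 (M:ℤ)) := PG.of_bdd (fun M _ _ _ => abs_e6_le M)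
theorem PG.psi : PG (fun M _ => ECC.psi (M:ℤ)) := PG.of_bdd (fun M _ _ _ => abs_psi_le M)

theorem PG.swap {f : ℕ → ℕ → ℝ} (hf : PG f) : PG (fun M ν => f ν M) := by
  obtain ⟨C, k, hf⟩ := hf
  exact ⟨C, k, fun M ν hM hν => by rw [mul_comm (M:ℝ)]; exact hf ν M hν hM⟩

theorem PG.ite {f : ℕ → ℕ → ℝ} (hf : PG f) (p : ℕ → ℕ → Prop) [∀ M ν, Decidable (p M ν)] :
    PG (fun M ν => if p M ν then f M ν else 0) := by
  obtain ⟨C, hC, k, hf⟩ := hf.nonneg_form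
  refine ⟨C, k, fun M ν hM hν => ?_⟩
  show |if p M ν then f M ν else 0| ≤ C * ((M : ℝ) * (ν : ℝ)) ^ k
  split_ifs
  · exact hf M ν hM hν
  · simp only [abs_zero]; positivity

theorem PG.scaleM {f : ℕ → ℕ → ℝ} (hf : PG f) {d : ℕ} (hd : 1 ≤ d) :
    PG (fun M ν => f (d * M) ν) := by
  obtain ⟨C, hC, k, hf⟩ := hf.nonneg_form
  refine ⟨C * (d:ℝ) ^ k, k, fun M ν hM hν => ?_⟩
  refine (hf (d * M) ν (Nat.mul_pos hd hM) hν).trans (le_of_eq ?_)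
  push_cast; ring

theorem PG.scaleN {f : ℕ → ℕ → ℝ} (hf : PG f) {d : ℕ} (hd : 1 ≤ d) :
    PG (fun M ν => f M (d * ν)) := (hf.swap.scaleM hd).swap

/-! ### summability -/

theorem summable_poly_geom {r : ℝ} (hr : 0 ≤ r) (hr1 : r < 1) (k : ℕ) :
    Summable (fun n : ℕ => ((n:ℝ) + 1) ^ k * r ^ n) := by
  have h1 : Summable (fun n : ℕ => ((n:ℝ)) ^ k * r ^ n) :=
    summable_pow_mul_geometric_of_norm_lt_one k (by rwa [Real.norm_of_nonneg hr])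
  rcases eq_or_lt_of_le hr with h0 | h0
  · refine summable_of_ne_finset_zero (s := {0}) (fun n hn => ?_)
    simp only [Finset.mem_singleton] at hn
    rw [← h0, zero_pow hn, mul_zero]
  have h2 := (summable_nat_add_iff 1).mpr h1
  have h3 := h2.mul_left (r⁻¹)
  refine h3.congr (fun n => ?_)
  rw [pow_succ]; push_cast
  field_simp

theorem summable_lambert {r : ℝ} (hr : 0 ≤ r) (hr1 : r < 1) (k : ℕ) :
    Summable (fun p : ℕ × ℕ => (((p.1:ℝ) + 1) * ((p.2:ℝ) + 1)) ^ k * r ^ (p.1 + p.2)) := by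
  have h := (summable_poly_geom hr hr1 k).mul_of_nonneg (summable_poly_geom hr hr1 k)
    (fun n => by positivity) (fun n => by positivity)
  refine h.congr (fun p => ?_)
  rw [pow_add, mul_pow]; ring

theorem LS_term_bound {f : ℕ → ℕ → ℝ} {C : ℝ} {k : ℕ}
    (h : ∀ M ν : ℕ, 1 ≤ M → 1 ≤ ν → |f M ν| ≤ C * ((M : ℝ) * (ν : ℝ)) ^ k) {q : ℝ} (hq : |q| < 1)
    (p : ℕ × ℕ) : |f (p.1 + 1) (p.2 + 1) * q ^ ((p.1 + 1) * (p.2 + 1))| ≤
      C * ((((p.1:ℝ) + 1) * ((p.2:ℝ) + 1)) ^ k * |q| ^ (p.1 + p.2)) * |q| := by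
  have h1 := h (p.1 + 1) (p.2 + 1) (by omega) (by omega)
  push_cast at h1
  rw [abs_mul, abs_pow]
  have h2 : |q| ^ ((p.1 + 1) * (p.2 + 1)) ≤ |q| ^ (p.1 + p.2 + 1) :=
    pow_le_pow_of_le_one (abs_nonneg q) hq.le (by nlinarith [Nat.zero_le (p.1 * p.2)])
  have h0 : 0 ≤ |f (p.1 + 1) (p.2 + 1)| := abs_nonneg _
  calc |f (p.1 + 1) (p.2 + 1)| * |q| ^ ((p.1 + 1) * (p.2 + 1))
      ≤ (C * (((p.1:ℝ) + 1) * ((p.2:ℝ) + 1)) ^ k) * |q| ^ (p.1 + p.2 + 1) :=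
        mul_le_mul h1 h2 (by positivity) (h0.trans h1)
    _ = _ := by rw [pow_succ]; ring

theorem LS_summable {f : ℕ → ℕ → ℝ} (hf : PG f) {q : ℝ} (hq : |q| < 1) :
    Summable (fun p : ℕ × ℕ => f (p.1 + 1) (p.2 + 1) * q ^ ((p.1 + 1) * (p.2 + 1))) := by
  obtain ⟨C, hC, k, h⟩ := hf.nonneg_form
  refine Summable.of_norm_bounded
    (((summable_lambert (abs_nonneg q) hq k).mul_left C).mul_right |q|) (fun p => ?_)
  rw [Real.norm_eq_abs]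
  exact LS_term_bound h hq p

theorem LS_hasSum {f : ℕ → ℕ → ℝ} (hf : PG f) {q : ℝ} (hq : |q| < 1) :
    HasSum (fun p : ℕ × ℕ => f (p.1 + 1) (p.2 + 1) * q ^ ((p.1 + 1) * (p.2 + 1))) (LS f q) :=
  (LS_summable hf hq).hasSum

/-- bound near `0` -/
theorem LS_bound {f : ℕ → ℕ → ℝ} (hf : PG f) {r : ℝ} (hr : r < 1) :
    ∃ C : ℝ, 0 ≤ C ∧ ∀ q : ℝ, |q| ≤ r → |LS f q| ≤ C * |q| := by
  rcases lt_or_ge r 0 with h0 | h0
  · exact ⟨0, le_rfl, fun q hq => absurd (abs_nonneg q) (by linarith)⟩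
  obtain ⟨C, hC, k, h⟩ := hf.nonneg_form
  have hs := summable_lambert h0 hr k
  refine ⟨C * ∑' p : ℕ × ℕ, (((p.1:ℝ) + 1) * ((p.2:ℝ) + 1)) ^ k * r ^ (p.1 + p.2),
    mul_nonneg hC (tsum_nonneg fun p => by positivity), fun q hq => ?_⟩
  have hq1 : |q| < 1 := lt_of_le_of_lt hq hr
  rw [← tsum_mul_left, ← tsum_mul_right, ← Real.norm_eq_abs]
  refine tsum_of_norm_bounded ((hs.mul_left C).mul_right |q|).hasSum (fun p => ?_)
  rw [Real.norm_eq_abs]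
  refine (LS_term_bound h hq1 p).trans ?_
  gcongr

/-- first order expansion near `0` -/
theorem LS_bound2 {f : ℕ → ℕ → ℝ} (hf : PG f) {r : ℝ} (hr : r < 1) :
    ∃ C : ℝ, 0 ≤ C ∧ ∀ q : ℝ, |q| ≤ r → |LS f q - f 1 1 * q| ≤ C * q ^ 2 := by
  rcases lt_or_ge r 0 with h0 | h0
  · exact ⟨0, le_rfl, fun q hq => absurd (abs_nonneg q) (by linarith)⟩
  obtain ⟨C, hC, k, h⟩ := hf.nonneg_form
  have hs := summable_lambert h0 hr k
  have hs2 : Summable (fun p : ℕ × ℕ =>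
      (((p.1:ℝ) + 1) * ((p.2:ℝ) + 1)) ^ k * r ^ (p.1 + p.2 - 1)) := by
    rcases eq_or_lt_of_le h0 with h1 | h1
    · refine summable_of_ne_finset_zero (s := {(0, 0), (1, 0), (0, 1)}) (fun p hp => ?_)
      rw [← h1, zero_pow, mul_zero]
      intro h2
      apply hp
      obtain ⟨a, b⟩ := p
      simp only at h2
      have : (a = 0 ∧ b = 0) ∨ (a = 1 ∧ b = 0) ∨ (a = 0 ∧ b = 1) := by omega
      rcases this with ⟨rfl, rfl⟩ | ⟨rfl, rfl⟩ | ⟨rfl, rfl⟩ <;> simp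
    · refine Summable.of_nonneg_of_le (fun p => by positivity) (fun p => ?_) (hs.mul_left r⁻¹)
      have hpow : r ^ (p.1 + p.2 - 1) ≤ r⁻¹ * r ^ (p.1 + p.2) := by
        rcases Nat.eq_zero_or_pos (p.1 + p.2) with h2 | h2
        · rw [h2]; simp only [Nat.zero_sub, pow_zero, mul_one]
          exact (one_le_inv₀ h1).mpr hr.le
        · have : p.1 + p.2 = (p.1 + p.2 - 1) + 1 := by omega
          conv_rhs => rw [this, pow_succ]
          apply le_of_eq; field_simp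
      calc (((p.1:ℝ) + 1) * ((p.2:ℝ) + 1)) ^ k * r ^ (p.1 + p.2 - 1)
          ≤ (((p.1:ℝ) + 1) * ((p.2:ℝ) + 1)) ^ k * (r⁻¹ * r ^ (p.1 + p.2)) := by gcongr
        _ = r⁻¹ * ((((p.1:ℝ) + 1) * ((p.2:ℝ) + 1)) ^ k * r ^ (p.1 + p.2)) := by ring
  refine ⟨C * ∑' p : ℕ × ℕ, (((p.1:ℝ) + 1) * ((p.2:ℝ) + 1)) ^ k * r ^ (p.1 + p.2 - 1),
    mul_nonneg hC (tsum_nonneg fun p => by positivity), fun q hq => ?_⟩
  have hq1 : |q| < 1 := lt_of_le_of_lt hq hr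
  have hsum := LS_summable hf hq1
  have e : LS f q - f 1 1 * q = ∑' p : ℕ × ℕ, (if p = (0, 0) then 0 else
      f (p.1 + 1) (p.2 + 1) * q ^ ((p.1 + 1) * (p.2 + 1))) := by
    unfold LS
    rw [hsum.tsum_eq_add_tsum_ite (0, 0)]
    simp
  rw [e, ← tsum_mul_left, ← tsum_mul_right, ← Real.norm_eq_abs]
  refine tsum_of_norm_bounded ((hs2.mul_left C).mul_right (q ^ 2)).hasSum (fun p => ?_)
  split_ifs with hp
  · rw [norm_zero]; positivity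
  have hp1 : 1 ≤ p.1 + p.2 := by
    by_contra h2
    exact hp (Prod.ext (by simp; omega) (by simp; omega))
  have h1 := h (p.1 + 1) (p.2 + 1) (by omega) (by omega)
  push_cast at h1
  rw [Real.norm_eq_abs, abs_mul, abs_pow]
  have h2 : |q| ^ ((p.1 + 1) * (p.2 + 1)) ≤ |q| ^ (p.1 + p.2 - 1 + 2) :=
    pow_le_pow_of_le_one (abs_nonneg q) hq1.le (by
      have : (p.1 + 1) * (p.2 + 1) = p.1 * p.2 + p.1 + p.2 + 1 := by ring
      omega)
  have h3 : |q| ^ (p.1 + p.2 - 1 + 2) ≤ r ^ (p.1 + p.2 - 1) * q ^ 2 := by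
    rw [pow_add, sq_abs]
    have := pow_le_pow_left₀ (abs_nonneg q) hq (p.1 + p.2 - 1)
    gcongr
  calc |f (p.1 + 1) (p.2 + 1)| * |q| ^ ((p.1 + 1) * (p.2 + 1))
      ≤ (C * (((p.1:ℝ) + 1) * ((p.2:ℝ) + 1)) ^ k) * (r ^ (p.1 + p.2 - 1) * q ^ 2) :=
        mul_le_mul h1 (h2.trans h3) (by positivity) ((abs_nonneg _).trans h1)
    _ = _ := by ring

theorem LS_zero (f : ℕ → ℕ → ℝ) : LS f 0 = 0 := by
  unfold LS
  have : ∀ p : ℕ × ℕ, f (p.1 + 1) (p.2 + 1) * (0:ℝ) ^ ((p.1 + 1) * (p.2 + 1)) = 0 := fun p => by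
    rw [zero_pow (by positivity), mul_zero]
  simp only [this, tsum_zero]

/-! ### linearity -/

theorem LS_congr {f g : ℕ → ℕ → ℝ} (h : ∀ M ν, 1 ≤ M → 1 ≤ ν → f M ν = g M ν) (q : ℝ) :
    LS f q = LS g q := by
  unfold LS
  exact tsum_congr fun p => by rw [h (p.1 + 1) (p.2 + 1) (by omega) (by omega)]

theorem LS_add {f g : ℕ → ℕ → ℝ} (hf : PG f) (hg : PG g) {q : ℝ} (hq : |q| < 1) :
    LS (fun M ν => f M ν + g M ν) q = LS f q + LS g q := by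
  unfold LS
  rw [← (LS_summable hf hq).tsum_add (LS_summable hg hq)]
  exact tsum_congr fun p => by ring

theorem LS_sub {f g : ℕ → ℕ → ℝ} (hf : PG f) (hg : PG g) {q : ℝ} (hq : |q| < 1) :
    LS (fun M ν => f M ν - g M ν) q = LS f q - LS g q := by
  unfold LS
  rw [← (LS_summable hf hq).tsum_sub (LS_summable hg hq)]
  exact tsum_congr fun p => by ring

theorem LS_mul_left (c : ℝ) (f : ℕ → ℕ → ℝ) (q : ℝ) :
    LS (fun M ν => c * f M ν) q = c * LS f q := by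
  unfold LS
  rw [← tsum_mul_left]
  exact tsum_congr fun p => by ring

theorem LS_neg (f : ℕ → ℕ → ℝ) (q : ℝ) : LS (fun M ν => -f M ν) q = -LS f q := by
  have := LS_mul_left (-1) f q
  simpa using this

theorem LS_swap (f : ℕ → ℕ → ℝ) (q : ℝ) : LS (fun M ν => f ν M) q = LS f q := by
  unfold LS
  rw [← (Equiv.prodComm ℕ ℕ).tsum_eq]
  exact tsum_congr fun p => by simp [mul_comm]

/-! ### sieving -/

theorem LS_sieveM (f : ℕ → ℕ → ℝ) {d : ℕ} (hd : 1 ≤ d) (q : ℝ) :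
    LS (fun M ν => if d ∣ M then f M ν else 0) q = LS (fun M ν => f (d * M) ν) (q ^ d) := by
  unfold LS
  have hinj : Function.Injective (fun p : ℕ × ℕ => (d * (p.1 + 1) - 1, p.2)) := by
    intro p p' h
    simp only [Prod.mk.injEq] at h
    obtain ⟨h1, h2⟩ := h
    have h3 : 1 ≤ d * (p.1 + 1) := Nat.mul_pos hd (by omega)
    have h4 : 1 ≤ d * (p'.1 + 1) := Nat.mul_pos hd (by omega)
    have h5 : d * (p.1 + 1) = d * (p'.1 + 1) := by omega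
    have h6 := Nat.eq_of_mul_eq_mul_left hd h5
    exact Prod.ext (by omega) h2
  have hsupp : Function.support (fun p : ℕ × ℕ =>
      (if d ∣ p.1 + 1 then f (p.1 + 1) (p.2 + 1) else 0) * q ^ ((p.1 + 1) * (p.2 + 1))) ⊆
      Set.range (fun p : ℕ × ℕ => (d * (p.1 + 1) - 1, p.2)) := by
    intro p hp
    by_cases hdv : d ∣ p.1 + 1
    · obtain ⟨c, hc⟩ := hdv
      have hc1 : 1 ≤ c := by
        rcases Nat.eq_zero_or_pos c with h | h
        · subst h; omega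
        · exact h
      refine ⟨(c - 1, p.2), ?_⟩
      have : c - 1 + 1 = c := by omega
      simp only [this, ← hc]
      exact Prod.ext (by simp) rfl
    · exact absurd (by simp [hdv]) hp
  rw [← hinj.tsum_eq hsupp]
  refine tsum_congr fun p => ?_
  have h3 : 1 ≤ d * (p.1 + 1) := Nat.mul_pos hd (by omega)
  have h4 : d * (p.1 + 1) - 1 + 1 = d * (p.1 + 1) := by omega
  simp only [h4, dvd_mul_right, if_true]
  rw [← pow_mul]
  ring_nf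

theorem LS_sieveN (f : ℕ → ℕ → ℝ) {d : ℕ} (hd : 1 ≤ d) (q : ℝ) :
    LS (fun M ν => if d ∣ ν then f M ν else 0) q = LS (fun M ν => f M (d * ν)) (q ^ d) := by
  rw [← LS_swap, LS_sieveM (fun M ν => f ν M) hd, ← LS_swap]

theorem abs_pow_lt_one' {q : ℝ} (hq : |q| < 1) {n : ℕ} (hn : 1 ≤ n) : |q ^ n| < 1 := by
  rw [abs_pow]
  exact pow_lt_one₀ (abs_nonneg q) hq (by omega)

/-- the argument `-q` -/
theorem LS_neg_arg {f : ℕ → ℕ → ℝ} (hf : PG f) {q : ℝ} (hq : |q| < 1) :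
    LS f (-q) = -LS f q + 2 * LS (fun M ν => f (2 * M) ν) (q ^ 2)
      + 2 * LS (fun M ν => f M (2 * ν)) (q ^ 2)
      - 2 * LS (fun M ν => f (2 * M) (2 * ν)) (q ^ 4) := by
  have e1 := LS_sieveM f (d := 2) (by norm_num) q
  have e2 := LS_sieveN f (d := 2) (by norm_num) q
  have e3 : LS (fun M ν => if 2 ∣ ν then (if 2 ∣ M then f M ν else 0) else 0) q =
      LS (fun M ν => f (2 * M) (2 * ν)) (q ^ 4) := by
    rw [LS_sieveN (fun M ν => if 2 ∣ M then f M ν else 0) (d := 2) (by norm_num) q,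
      LS_sieveM (fun M ν => f M (2 * ν)) (d := 2) (by norm_num) (q ^ 2), ← pow_mul]
  rw [← e1, ← e2, ← e3]
  have hs := LS_summable hf hq
  have g1 := hf.ite (fun M _ => 2 ∣ M)
  have g2 := hf.ite (fun _ ν => 2 ∣ ν)
  have g3 := g1.ite (fun _ ν => 2 ∣ ν)
  rw [← LS_neg f, ← LS_mul_left 2, ← LS_mul_left 2, ← LS_mul_left 2,
    ← LS_add hf.neg ((PG.const 2).mul g1) hq,
    ← LS_add (hf.neg.add ((PG.const 2).mul g1)) ((PG.const 2).mul g2) hq,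
    ← LS_sub ((hf.neg.add ((PG.const 2).mul g1)).add ((PG.const 2).mul g2))
      ((PG.const 2).mul g3) hq]
  unfold LS
  refine tsum_congr fun p => ?_
  rw [neg_pow]
  rcases Nat.even_or_odd (p.1 + 1) with h1 | h1 <;> rcases Nat.even_or_odd (p.2 + 1) with h2 | h2
  · have h3 : Even ((p.1 + 1) * (p.2 + 1)) := h1.mul_right _
    have h1' := h1.two_dvd
    have h2' := h2.two_dvd
    rw [h3.neg_one_pow]; simp only [h1', h2', if_true]; ring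
  · have h3 : Even ((p.1 + 1) * (p.2 + 1)) := h1.mul_right _
    have h1' := h1.two_dvd
    have h2' : ¬ 2 ∣ p.2 + 1 := by rw [← even_iff_two_dvd]; exact Nat.not_even_iff_odd.mpr h2
    rw [h3.neg_one_pow]; simp only [h1', h2', if_true, if_false]; ring
  · have h3 : Even ((p.1 + 1) * (p.2 + 1)) := h2.mul_left _
    have h2' := h2.two_dvd
    have h1' : ¬ 2 ∣ p.1 + 1 := by rw [← even_iff_two_dvd]; exact Nat.not_even_iff_odd.mpr h1
    rw [h3.neg_one_pow]; simp only [h1', h2', if_true, if_false]; ring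
  · have h3 : Odd ((p.1 + 1) * (p.2 + 1)) := h1.mul h2
    have h1' : ¬ 2 ∣ p.1 + 1 := by rw [← even_iff_two_dvd]; exact Nat.not_even_iff_odd.mpr h1
    have h2' : ¬ 2 ∣ p.2 + 1 := by rw [← even_iff_two_dvd]; exact Nat.not_even_iff_odd.mpr h2
    rw [h3.neg_one_pow]; simp only [h1', h2', if_false]; ring

/-! ### differentiation -/

theorem PG.theta {f : ℕ → ℕ → ℝ} (hf : PG f) : PG (fun M ν => (M:ℝ) * (ν:ℝ) * f M ν) :=
  (PG.M.mul PG.N).mul hf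

theorem LS_deriv {f : ℕ → ℕ → ℝ} (hf : PG f) {q : ℝ} (hq : |q| < 1) :
    ∃ d : ℝ, HasDerivAt (LS f) d q ∧ q * d = LS (fun M ν => (M:ℝ) * (ν:ℝ) * f M ν) q := by
  obtain ⟨C, hC, k, h⟩ := hf.nonneg_form
  obtain ⟨r, hr1, hr2⟩ := exists_between hq
  have hr0 : 0 ≤ r := (abs_nonneg q).trans hr1.le
  have hs := (summable_lambert hr0 hr2 (k + 1)).mul_left C
  have hd : HasDerivAt (fun z => ∑' p : ℕ × ℕ, f (p.1 + 1) (p.2 + 1) * z ^ ((p.1 + 1) * (p.2 + 1)))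
      (∑' p : ℕ × ℕ, f (p.1 + 1) (p.2 + 1) *
        (((((p.1 + 1) * (p.2 + 1) : ℕ)) : ℝ) * q ^ ((p.1 + 1) * (p.2 + 1) - 1))) q := by
    refine hasDerivAt_tsum_of_isPreconnected (t := Metric.ball (0:ℝ) r)
      (g := fun p z => f (p.1 + 1) (p.2 + 1) * z ^ ((p.1 + 1) * (p.2 + 1)))
      (g' := fun p z => f (p.1 + 1) (p.2 + 1) *
        (((((p.1 + 1) * (p.2 + 1) : ℕ)) : ℝ) * z ^ ((p.1 + 1) * (p.2 + 1) - 1)))
      (y₀ := q) hs Metric.isOpen_ball (convex_ball _ _).isPreconnected ?_ ?_ ?_ ?_ ?_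
    · intro p z _
      exact (hasDerivAt_pow _ z).const_mul _
    · intro p z hz
      have hz' : |z| < r := by simpa using hz
      rw [Real.norm_eq_abs, abs_mul, abs_mul, abs_pow, Nat.abs_cast]
      have h1 := h (p.1 + 1) (p.2 + 1) (by omega) (by omega)
      push_cast at h1 ⊢
      have h2 : |z| ^ ((p.1 + 1) * (p.2 + 1) - 1) ≤ r ^ (p.1 + p.2) := by
        refine (pow_le_pow_left₀ (abs_nonneg z) hz'.le _).trans
          (pow_le_pow_of_le_one hr0 hr2.le ?_)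
        have : (p.1 + 1) * (p.2 + 1) = p.1 * p.2 + p.1 + p.2 + 1 := by ring
        omega
      calc |f (p.1 + 1) (p.2 + 1)| * (((p.1:ℝ) + 1) * ((p.2:ℝ) + 1) *
            |z| ^ ((p.1 + 1) * (p.2 + 1) - 1))
          ≤ (C * (((p.1:ℝ) + 1) * ((p.2:ℝ) + 1)) ^ k) * (((p.1:ℝ) + 1) * ((p.2:ℝ) + 1) *
            r ^ (p.1 + p.2)) := by gcongr
        _ = C * ((((p.1:ℝ) + 1) * ((p.2:ℝ) + 1)) ^ (k + 1) * r ^ (p.1 + p.2)) := by
            rw [pow_succ]; ring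
    · simpa using hr1
    · exact LS_summable hf hq
    · simpa using hr1
  refine ⟨_, hd, ?_⟩
  unfold LS
  rw [← tsum_mul_left]
  refine tsum_congr fun p => ?_
  have : (p.1 + 1) * (p.2 + 1) = ((p.1 + 1) * (p.2 + 1) - 1) + 1 := by
    have : 1 ≤ (p.1 + 1) * (p.2 + 1) := Nat.mul_pos (by omega) (by omega)
    omega
  conv_rhs => rw [this, pow_succ]
  push_cast
  ring

theorem LS_continuousAt {f : ℕ → ℕ → ℝ} (hf : PG f) {q : ℝ} (hq : |q| < 1) :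
    ContinuousAt (LS f) q := by
  obtain ⟨d, hd, _⟩ := LS_deriv hf hq
  exact hd.continuousAt

/-- derivative along `q(y)` with `q' = c q` -/
theorem LS_comp_deriv {f : ℕ → ℕ → ℝ} (hf : PG f) {Q : ℝ → ℝ} {c y : ℝ}
    (hQ : HasDerivAt Q (c * Q y) y) (hq : |Q y| < 1) :
    HasDerivAt (fun y => LS f (Q y)) (c * LS (fun M ν => (M:ℝ) * (ν:ℝ) * f M ν) (Q y)) y := by
  obtain ⟨d, hd, h⟩ := LS_deriv hf hq
  have := hd.comp y hQ
  refine this.congr_deriv ?_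
  rw [← h]; ring

theorem aS_zero : aS 0 = 1 := by unfold aS; rw [LS_zero]; ring

theorem aS_expand {r : ℝ} (hr : r < 1) :
    ∃ C : ℝ, 0 ≤ C ∧ ∀ q : ℝ, |q| ≤ r → |aS q - 1 - 6 * q| ≤ C * q ^ 2 := by
  obtain ⟨C, hC, h⟩ := LS_bound2 PG.chi hr
  refine ⟨6 * C, by positivity, fun q hq => ?_⟩
  have h1 := h q hq
  have h2 : EC237.chi ((1:ℕ):ℤ) = 1 := by unfold EC237.chi; norm_num
  rw [h2] at h1
  unfold aS
  rw [show 1 + 6 * LS (fun M _ => EC237.chi (M:ℤ)) q - 1 - 6 * q =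
    6 * (LS (fun M _ => EC237.chi (M:ℤ)) q - 1 * q) by ring, abs_mul]
  rw [show |(6:ℝ)| = 6 by norm_num]
  nlinarith

theorem aS_continuousAt {q : ℝ} (hq : |q| < 1) : ContinuousAt aS q :=
  ((LS_continuousAt PG.chi hq).const_mul 6).const_add 1

theorem Qn_neg (y : ℝ) : Qn y < 0 := by unfold Qn; linarith [Real.exp_pos (-(Real.pi * y))]

theorem abs_Qn (y : ℝ) : |Qn y| = Real.exp (-(Real.pi * y)) := by
  unfold Qn; rw [abs_neg, abs_of_pos (Real.exp_pos _)]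

theorem abs_Qn_lt {y : ℝ} (hy : 0 < y) : |Qn y| < 1 := by
  rw [abs_Qn, Real.exp_lt_one_iff]
  have := mul_pos Real.pi_pos hy
  linarith

theorem Qn_deriv (y : ℝ) : HasDerivAt Qn (-Real.pi * Qn y) y := by
  unfold Qn
  have h := ((hasDerivAt_id y).const_mul Real.pi).neg.exp.neg
  refine h.congr_deriv ?_
  simp [mul_comm]

theorem Qn_pow_deriv (n : ℕ) (y : ℝ) :
    HasDerivAt (fun y => Qn y ^ n) (-(n * Real.pi) * Qn y ^ n) y := by
  have h := (Qn_deriv y).pow n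
  refine h.congr_deriv ?_
  rcases n with _ | n
  · simp
  · simp only [Nat.add_sub_cancel]; push_cast; ring

theorem Qn_pow_abs {y : ℝ} (hy : 0 < y) {n : ℕ} (hn : 1 ≤ n) : |Qn y ^ n| < 1 :=
  abs_pow_lt_one' (abs_Qn_lt hy) hn

theorem aS_Qn_deriv {y : ℝ} (hy : 0 < y) :
    HasDerivAt (fun y => aS (Qn y)) (-Real.pi * aT (Qn y)) y := by
  unfold aS aT
  refine ((LS_comp_deriv PG.chi (Qn_deriv y) (abs_Qn_lt hy)).const_mul 6 |>.const_add 1).congr_deriv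
    ?_
  ring

theorem aS_Qn2_deriv {y : ℝ} (hy : 0 < y) :
    HasDerivAt (fun y => aS (Qn y ^ 2)) (-Real.pi * (2 * aT (Qn y ^ 2))) y := by
  unfold aS aT
  have h := LS_comp_deriv PG.chi (Qn_pow_deriv 2 y) (Qn_pow_abs hy (by norm_num : 1 ≤ 2))
  refine ((h.const_mul 6).const_add 1).congr_deriv ?_
  push_cast; ring

theorem PS_Qn_deriv {y : ℝ} (hy : 0 < y) :
    HasDerivAt (fun y => PS (Qn y)) (-Real.pi * (-24 * GT (Qn y))) y := by
  unfold PS GS GT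
  refine (((LS_comp_deriv PG.N (Qn_deriv y) (abs_Qn_lt hy)).const_mul 24).const_sub 1).congr_deriv
    ?_
  have : LS (fun M ν => (M:ℝ) * (ν:ℝ) * (ν:ℝ)) (Qn y) = LS (fun M ν => (M:ℝ) * (ν:ℝ) ^ 2) (Qn y) :=
    LS_congr (fun M ν _ _ => by ring) _
  rw [this]; ring

end ECC
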