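import Pool.Agent.Helper2.EC_C.Basic
import Pool.Agent.Helper80.EC_F.Defs

/-!
# MP_ecc237_nt (S18871): PART C results in the notation of PART F
-/

set_option autoImplicit false

open MeasureTheory Filter Topology Set

namespace ECC

theorem aS_eq : EC237.aS = aS := by
  funext q
  unfold EC237.aS aS LS
  congr 2

theorem XS_eq : EC237.XS = XS := by
  funext q
  unfold EC237.XS XS LS
  exact tsum_congr fun p => by push_cast; rfl

theorem bS_eq : EC237.bS = bS := by
  funext q
  unfold EC237.bS bS LS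
  congr 2
  exact tsum_congr fun p => by push_cast; rfl

theorem ES_eq : EC237.ES = ES := by
  funext q
  unfold EC237.ES ES HS LS
  congr 2
  exact tsum_congr fun p => by push_cast; rfl

theorem c10 (x_ : G_X) (b1 : G_B1) (e4_ : G_E4) : EC237.C10 := by
  intro q hq0 hq1
  have hq : |q| < 1 := by rwa [abs_of_nonneg hq0]
  rw [aS_eq, XS_eq, ES_eq, (e4_ q hq).1, (e4_ q hq).2]
  have h1 := (x_ q hq).1
  have h2 := b1 q hq
  unfold AA BB at h2
  rw [h2]
  linear_combination (240 / 54 * aS q) * h1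

theorem c11a (x_ : G_X) : EC237.C11a := by
  intro q hq0 hq1
  have hq : |q| < 1 := by rwa [abs_of_nonneg hq0]
  rw [aS_eq, XS_eq]; exact (x_ q hq).1

theorem c11b (x_ : G_X) : EC237.C11b := by
  intro q hq0 hq1
  have hq : |q| < 1 := by rwa [abs_of_nonneg hq0]
  rw [aS_eq, XS_eq]; exact (x_ q hq).2

theorem c17 (f_ : G_F) : EC237.C17 := by
  intro y hy
  rw [aS_eq, f_ y hy]
  have e : Real.exp (-(4 * Real.pi * y)) = Real.exp (-(2 * Real.pi * y)) ^ 2 := by
    rw [← Real.exp_nat_mul]; congr 1; push_cast; ring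
  rw [e]
  unfold AA BB CC DD
  ring

theorem c18' (c18 : G_C18) : EC237.C18 := by
  intro q hq0 hq1
  have hq : |q| < 1 := by rwa [abs_of_nonneg hq0]
  rw [aS_eq]; exact c18 q hq

theorem c20a (at_ : G_AT) : EC237.C20a := by
  intro t ht
  rw [aS_eq]; exact at_ t ht

theorem c20x (xt : G_XT) : EC237.C20x := by
  intro t ht
  rw [bS_eq, XS_eq]; exact xt t ht

theorem c20f (ft : G_FT) : EC237.C20f := ft

theorem ce4 (e4t : G_E4T) : EC237.CE4 := by
  intro t ht
  rw [ES_eq]; exact e4t t ht

end ECC
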