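import Pool.Agent.Helper23.EC.Interface

/-!
# MP_ecc237_nt (S18871), PART C (modular package): definitions

All `q`-series are real series for real `q` with `|q| < 1`.
-/

set_option autoImplicit false

open MeasureTheory Filter Topology Set

namespace ECC

open EC237

/-- The Lambert series `Σ_{M,ν≥1} f(M,ν) q^{Mν}`. -/
noncomputable def LS (f : ℕ → ℕ → ℝ) (q : ℝ) : ℝ :=
  ∑' p : ℕ × ℕ, f (p.1 + 1) (p.2 + 1) * q ^ ((p.1 + 1) * (p.2 + 1))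

/-- Polynomial growth. -/
def PG (f : ℕ → ℕ → ℝ) : Prop :=
  ∃ C : ℝ, ∃ k : ℕ, ∀ M ν : ℕ, 1 ≤ M → 1 ≤ ν → |f M ν| ≤ C * ((M : ℝ) * (ν : ℝ)) ^ k

/-- `a(q) = 1 + 6 Σ χ(M) q^{Mν}` -/
noncomputable def aS (q : ℝ) : ℝ := 1 + 6 * LS (fun M _ => chi (M : ℤ)) q

/-- `θa(q) = 6 Σ χ(M) Mν q^{Mν}` (`θ = q d/dq`) -/
noncomputable def aT (q : ℝ) : ℝ := 6 * LS (fun M ν => (M : ℝ) * (ν : ℝ) * chi (M : ℤ)) q

/-- `X(q) = Σ χ(M) ν² q^{Mν}` -/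
noncomputable def XS (q : ℝ) : ℝ := LS (fun M ν => chi (M : ℤ) * (ν : ℝ) ^ 2) q

/-- `b3(q) = 1 - 9 Σ χ(M) M² q^{Mν}` -/
noncomputable def bS (q : ℝ) : ℝ := 1 - 9 * LS (fun M _ => chi (M : ℤ) * (M : ℝ) ^ 2) q

/-- `G(q) = Σ ν q^{Mν}` -/
noncomputable def GS (q : ℝ) : ℝ := LS (fun _ ν => (ν : ℝ)) q

/-- `θG(q) = Σ Mν² q^{Mν}` -/
noncomputable def GT (q : ℝ) : ℝ := LS (fun M ν => (M : ℝ) * (ν : ℝ) ^ 2) q

/-- `H(q) = Σ ν³ q^{Mν}` -/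
noncomputable def HS (q : ℝ) : ℝ := LS (fun _ ν => (ν : ℝ) ^ 3) q

/-- `E2 = 1 - 24 G` -/
noncomputable def PS (q : ℝ) : ℝ := 1 - 24 * GS q

/-- `E4 = 1 + 240 H` -/
noncomputable def ES (q : ℝ) : ℝ := 1 + 240 * HS q

/-- `A = 2β - a`, `β = a(q²)` -/
noncomputable def AA (q : ℝ) : ℝ := 2 * aS (q ^ 2) - aS q

/-- `B = (a + β)/2` -/
noncomputable def BB (q : ℝ) : ℝ := (aS q + aS (q ^ 2)) / 2

/-- `C = (a + 2β)/3` -/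
noncomputable def CC (q : ℝ) : ℝ := (aS q + 2 * aS (q ^ 2)) / 3

/-- `Dd = (a - β)/6` -/
noncomputable def DD (q : ℝ) : ℝ := (aS q - aS (q ^ 2)) / 6

/-- `q = -Q = -e^{-πy}` -/
noncomputable def Qn (y : ℝ) : ℝ := -Real.exp (-(Real.pi * y))

/-- `w(y) = x(y)² = -9 Dd/B` at `q = -e^{-πy}` -/
noncomputable def ww (y : ℝ) : ℝ := -9 * DD (Qn y) / BB (Qn y)

/-- `x(y) = exp(-(2/π)σ(y))` -/
noncomputable def xx (y : ℝ) : ℝ := Real.exp (-(2 / Real.pi) * sg y)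

/-- the polynomial `D(t,w) = (3+t²)² + 2w(1-t²)(5-t²) + w²(1-t²)²` -/
def Dtw (t w : ℝ) : ℝ :=
  (3 + t ^ 2) ^ 2 + 2 * w * (1 - t ^ 2) * (5 - t ^ 2) + w ^ 2 * (1 - t ^ 2) ^ 2

/-- `ρ(w) = ∫_0^1 2 D(t,w)^{-1/2} dt`; `r(x) = ρ(x²)` -/
noncomputable def rho (w : ℝ) : ℝ := ∫ t in (0:ℝ)..1, 2 / Real.sqrt (Dtw t w)

/-- `ρ'(w)` -/
noncomputable def rho1 (w : ℝ) : ℝ :=
  ∫ t in (0:ℝ)..1,
    -((2 * (1 - t ^ 2) * (5 - t ^ 2) + 2 * w * (1 - t ^ 2) ^ 2) /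
      (Dtw t w * Real.sqrt (Dtw t w)))

/-- `cos (2πn/3)` -/
noncomputable def e3 (n : ℤ) : ℝ := if n % 3 = 0 then 1 else -1 / 2

/-- `cos (πn/3)` -/
noncomputable def e6 (n : ℤ) : ℝ :=
  if n % 6 = 0 then 1 else if n % 6 = 1 then 1 / 2 else if n % 6 = 2 then -1 / 2
  else if n % 6 = 3 then -1 else if n % 6 = 4 then -1 / 2 else 1 / 2

/-- `(2/√3) sin (πn/3)` -/
noncomputable def psi (n : ℤ) : ℝ :=
  if n % 6 = 1 then 1 else if n % 6 = 2 then 1 else if n % 6 = 4 then -1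
  else if n % 6 = 5 then -1 else 0

end ECC
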