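import Pool.Agent.Helper2.EC_C.POS

set_option autoImplicit false

open EC237 Set

namespace ECC.PkFR

open ECC.PkPOS

theorem fr (par : G_PAR) (at_ : G_AT) (pos : G_POS) : G_FR := by
  intro y hy
  have hy' : 0 < 1 / (3 * y) := by positivity
  have hpy : 0 < Real.pi * y := mul_pos Real.pi_pos hy
  have hc2 : 0 < Real.pi / (3 * y) := by positivity
  obtain ⟨_, p1, _, _⟩ := pos y hy
  obtain ⟨_, p2, _, p4⟩ := pos (1 / (3 * y)) hy'
  have hQ : Real.exp (-(Real.pi * (1 / (3 * y)))) = Real.exp (-(Real.pi / (3 * y))) := by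
    congr 1; field_simp
  have a1 := at1 at_ hy
  have a2 := at2 at_ hy
  have a4 := at4 at_ hy
  have hQa : |Real.exp (-(Real.pi * y))| < 1 := by
    rw [abs_of_pos (Real.exp_pos _)]; exact (exp_mem hpy).2
  have hra : |Real.exp (-(Real.pi / (3 * y)))| < 1 := by
    rw [abs_of_pos (Real.exp_pos _)]; exact (exp_mem hc2).2
  have b1 := (par _ hQa).1
  have b2 := (par _ hra).1
  have e1 : aS (Qn y) = 2 * aS (Real.exp (-(Real.pi * y)) ^ 4) - aS (Real.exp (-(Real.pi * y))) := by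
    unfold Qn; rw [b1]
  have e2 : aS (Qn y ^ 2) = aS (Real.exp (-(Real.pi * y)) ^ 2) := by
    unfold Qn; congr 1; ring
  have e3 : aS (Qn (1 / (3 * y))) = 2 * aS (Real.exp (-(Real.pi / (3 * y))) ^ 4) -
      aS (Real.exp (-(Real.pi / (3 * y)))) := by
    unfold Qn; rw [hQ, b2]
  have e4 : aS (Qn (1 / (3 * y)) ^ 2) = aS (Real.exp (-(Real.pi / (3 * y))) ^ 2) := by
    unfold Qn; rw [hQ]; congr 1; ring
  unfold BB at p1 p2
  unfold DD at p4
  rw [e1, e2] at p1
  rw [e3, e4] at p2 p4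
  unfold ww DD BB
  rw [e1, e2, e3, e4]
  rw [a1, a2, a4] at p1 ⊢
  set u := aS (Real.exp (-(Real.pi / (3 * y))) ^ 4)
  set v := aS (Real.exp (-(Real.pi / (3 * y))) ^ 2)
  set w := aS (Real.exp (-(Real.pi / (3 * y))))
  have hs : Real.sqrt 3 ≠ 0 := by positivity
  have hy0 : y ≠ 0 := hy.ne'
  have f1 : 2 * (1 / (2 * (Real.sqrt 3 * y)) * w) - 2 / (Real.sqrt 3 * y) * u +
      1 / (Real.sqrt 3 * y) * v = (w - 2 * u + v) / (Real.sqrt 3 * y) := by
    field_simp
  have f2 : 2 * (1 / (2 * (Real.sqrt 3 * y)) * w) - 2 / (Real.sqrt 3 * y) * u -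
      1 / (Real.sqrt 3 * y) * v = (w - 2 * u - v) / (Real.sqrt 3 * y) := by
    field_simp
  have g1 : w - 2 * u + v ≠ 0 := by
    intro h
    rw [f1, h] at p1
    simp at p1
  have g2 : 2 * u - w + v ≠ 0 := by
    intro h; rw [h] at p2; simp at p2
  have g3 : 2 * u - w - v ≠ 0 := by
    intro h; rw [h] at p4; simp at p4
  rw [f1, f2]
  field_simp
  ring

end ECC.PkFR
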