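import Pool.Agent.Helper2.EC_C.Basic

set_option autoImplicit false

open EC237 Set

namespace ECC.PkPOS

theorem exp_mem {c : ℝ} (hc : 0 < c) : Real.exp (-c) ∈ Ico (0:ℝ) 1 :=
  ⟨(Real.exp_pos _).le, by rw [Real.exp_lt_one_iff]; linarith⟩

/-- `a(Q²)`, `a(Q⁴)`, `a(Q)` through `a(q')`, `q' = e^{-π/(3y)}` -/
theorem at1 (at_ : G_AT) {y : ℝ} (hy : 0 < y) :
    aS (Real.exp (-(Real.pi * y))) =
      2 / (Real.sqrt 3 * y) * aS (Real.exp (-(Real.pi / (3 * y))) ^ 4) := by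
  have h := at_ (2 / (3 * y)) (by positivity)
  have e1 : 2 * Real.pi / (3 * (2 / (3 * y))) = Real.pi * y := by field_simp
  have e2 : Real.exp (-(2 * Real.pi * (2 / (3 * y)))) = Real.exp (-(Real.pi / (3 * y))) ^ 4 := by
    rw [← Real.exp_nat_mul]; congr 1; push_cast; field_simp; ring
  rw [e1, e2] at h
  rw [h]
  have h3 : Real.sqrt 3 * (2 / (3 * y)) = 2 / (Real.sqrt 3 * y) := by
    have hs : Real.sqrt 3 ^ 2 = 3 := Real.sq_sqrt (by norm_num)
    have hs0 : Real.sqrt 3 ≠ 0 := by positivity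
    field_simp
    linarith
  rw [h3]

theorem at2 (at_ : G_AT) {y : ℝ} (hy : 0 < y) :
    aS (Real.exp (-(Real.pi * y)) ^ 2) =
      1 / (Real.sqrt 3 * y) * aS (Real.exp (-(Real.pi / (3 * y))) ^ 2) := by
  have h := at_ (1 / (3 * y)) (by positivity)
  have e1 : Real.exp (-(2 * Real.pi / (3 * (1 / (3 * y))))) = Real.exp (-(Real.pi * y)) ^ 2 := by
    rw [← Real.exp_nat_mul]; congr 1; push_cast; field_simp
  have e2 : Real.exp (-(2 * Real.pi * (1 / (3 * y)))) = Real.exp (-(Real.pi / (3 * y))) ^ 2 := by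
    rw [← Real.exp_nat_mul]; congr 1; push_cast; field_simp
  rw [e1, e2] at h
  rw [h]
  have h3 : Real.sqrt 3 * (1 / (3 * y)) = 1 / (Real.sqrt 3 * y) := by
    have hs : Real.sqrt 3 ^ 2 = 3 := Real.sq_sqrt (by norm_num)
    have hs0 : Real.sqrt 3 ≠ 0 := by positivity
    field_simp
    linarith
  rw [h3]

theorem at4 (at_ : G_AT) {y : ℝ} (hy : 0 < y) :
    aS (Real.exp (-(Real.pi * y)) ^ 4) =
      1 / (2 * (Real.sqrt 3 * y)) * aS (Real.exp (-(Real.pi / (3 * y)))) := by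
  have h := at_ (1 / (6 * y)) (by positivity)
  have e1 : Real.exp (-(2 * Real.pi / (3 * (1 / (6 * y))))) = Real.exp (-(Real.pi * y)) ^ 4 := by
    rw [← Real.exp_nat_mul]; congr 1; push_cast; field_simp; ring
  have e2 : Real.exp (-(2 * Real.pi * (1 / (6 * y)))) = Real.exp (-(Real.pi / (3 * y))) := by
    congr 1; field_simp; ring
  rw [e1, e2] at h
  rw [h]
  have h3 : Real.sqrt 3 * (1 / (6 * y)) = 1 / (2 * (Real.sqrt 3 * y)) := by
    have hs : Real.sqrt 3 ^ 2 = 3 := Real.sq_sqrt (by norm_num)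
    have hs0 : Real.sqrt 3 ≠ 0 := by positivity
    field_simp
    linarith
  rw [h3]

theorem pos (par : G_PAR) (mon : G_MON) (c18 : G_C18) (at_ : G_AT) : G_POS := by
  intro y hy
  obtain ⟨hm, h1⟩ := mon
  have hpy : 0 < Real.pi * y := mul_pos Real.pi_pos hy
  set Q := Real.exp (-(Real.pi * y)) with hQ
  have hQm : Q ∈ Ico (0:ℝ) 1 := exp_mem hpy
  have hQ0 : 0 < Q := Real.exp_pos _
  have hQ1 : Q < 1 := hQm.2
  have hQa : |Q| < 1 := by rwa [abs_of_pos hQ0]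
  have hq : Qn y = -Q := rfl
  have hQ2 : Q ^ 2 ∈ Ico (0:ℝ) 1 := ⟨by positivity, pow_lt_one₀ hQ0.le hQ1 (by norm_num)⟩
  have hQ4 : Q ^ 4 ∈ Ico (0:ℝ) 1 := ⟨by positivity, pow_lt_one₀ hQ0.le hQ1 (by norm_num)⟩
  have l1 : aS (Q ^ 2) < aS Q := hm hQ2 hQm (by nlinarith)
  have l2 : aS (Q ^ 4) < aS (Q ^ 2) := hm hQ4 hQ2 (by
    have : Q ^ 4 = Q ^ 2 * Q ^ 2 := by ring
    rw [this]; have := hQ2.2; have : 0 < Q ^ 2 := by positivity
    nlinarith)
  have l3 : 1 ≤ aS (Q ^ 4) := h1 _ hQ4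
  have hp := (par Q hQa).1
  have hc := c18 Q hQa
  have e1 : aS (Qn y) = 2 * aS (Q ^ 4) - aS Q := by rw [hq, hp]
  have e2 : aS (Qn y ^ 2) = aS (Q ^ 2) := by rw [hq]; congr 1; ring
  -- `β < 2γ`
  have hlt : aS (Q ^ 2) < 2 * aS (Q ^ 4) := by
    rw [hQ, at2 at_ hy, at4 at_ hy]
    have hc2 : 0 < Real.pi / (3 * y) := by positivity
    have hr := exp_mem hc2
    have hr0 : 0 < Real.exp (-(Real.pi / (3 * y))) := Real.exp_pos _
    have hr2 : Real.exp (-(Real.pi / (3 * y))) ^ 2 ∈ Ico (0:ℝ) 1 :=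
      ⟨by positivity, pow_lt_one₀ hr0.le hr.2 (by norm_num)⟩
    have := hm hr2 hr (by nlinarith [hr.2])
    have hs : 0 < 1 / (Real.sqrt 3 * y) := by positivity
    have e : 2 * (1 / (2 * (Real.sqrt 3 * y)) * aS (Real.exp (-(Real.pi / (3 * y))))) =
        1 / (Real.sqrt 3 * y) * aS (Real.exp (-(Real.pi / (3 * y)))) := by
      have : 1 / (2 * (Real.sqrt 3 * y)) = 1 / (Real.sqrt 3 * y) / 2 := by field_simp
      rw [this]; ring
    rw [e]
    exact mul_lt_mul_of_pos_left this hs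
  have hB : 0 < 2 * aS (Q ^ 4) - aS Q + aS (Q ^ 2) := by
    by_contra hcon
    push Not at hcon
    have h2 : aS (Q ^ 2) + aS (Q ^ 4) ≤ aS Q - aS (Q ^ 4) := by linarith
    nlinarith
  unfold AA BB CC DD
  rw [e1, e2]
  refine ⟨?_, ?_, ?_, ?_⟩ <;> linarith

end ECC.PkPOS
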