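import Pool.Agent.Helper2.EC_C.Basic

set_option autoImplicit false

open EC237

namespace ECC.PkTH

theorem th (k1 : G_K1) (k2 : G_K2) (k3 : G_K3) (k5 : G_K5) (b1 : G_B1) (b2 : G_B2)
    (e4_ : G_E4) : G_TH := by
  intro q hq
  have hq2 : |q ^ 2| < 1 := abs_pow_lt_one' hq (by norm_num)
  have h1 := k1 q hq
  have h1' := k1 (q ^ 2) hq2
  have e6 : (q ^ 2) ^ 3 = q ^ 6 := by ring
  rw [e6] at h1'
  have h2 := k2 q hq
  have h3 := k3 q hq
  have h3' := k3 (q ^ 2) hq2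
  rw [e6] at h3'
  have h5 := k5 q hq
  have hb1 := b1 q hq
  have hb2 := b2 q hq
  have he4 := (e4_ q hq).1
  rw [hb1] at he4 h3
  rw [hb2] at h3'
  unfold ES at he4
  unfold PS AA BB CC at *
  set a := aS q
  set b := aS (q ^ 2)
  set G1 := GS q
  set G2 := GS (q ^ 2)
  set G3 := GS (q ^ 3)
  set G6 := GS (q ^ 6)
  have hG3 : G3 = (1 + 12 * G1 - a ^ 2) / 36 := by linarith
  have hG6 : G6 = (1 + 12 * G2 - b ^ 2) / 36 := by linarith
  have hG2 : G2 = (1 - (1 - 24 * G1 + a ^ 2 + 2 * a * b - 2 * b ^ 2) / 2) / 24 := by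
    rw [hG3, hG6] at h2
    linarith
  refine ⟨?_, ?_, ?_, ?_, ?_, ?_, ?_⟩
  · rw [h3, hG3]; ring
  · rw [h3', hG6, hG2]; ring
  · rw [h5]
    linear_combination -he4
  · rw [hG3, hG6]; ring
  · rw [hG2]; ring
  · rw [hG3]; ring
  · rw [hG6]; ring

end ECC.PkTH
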