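import Pool.Agent.Helper2.EC_C.Bridge
import Pool.Agent.Helper18.EC_C.RAM
import Pool.Agent.Helper72.EC_C.RV
import Pool.Agent.Helper5.EC_C.RHO
import Pool.Agent.Helper60.EC_C.E2T
import Pool.Agent.Helper25.EC_C.E4T
import Pool.Agent.Helper39.EC_C.XT
import Pool.Agent.Helper62.EC_C.ETA
import Pool.Agent.Helper89.EC_C.K1
import Pool.Agent.Helper2.EC_C.K2
import Pool.Agent.Helper62.EC_C.K3
import Pool.Agent.Helper56.EC_C.K4
import Pool.Agent.Helper67.EC_C.K5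
import Pool.Agent.Helper33.EC_C.K6
import Pool.Agent.Helper25.EC_C.PAR
import Pool.Agent.Helper9.EC_C.MON
import Pool.Agent.Helper29.EC_C.B2
import Pool.Agent.Helper5.EC_C.C18
import Pool.Agent.Helper45.EC_C.B1
import Pool.Agent.Helper32.EC_C.AT
import Pool.Agent.Helper14.EC_C.X
import Pool.Agent.Helper3.EC_C.E4
import Pool.Agent.Helper2.EC_C.TH
import Pool.Agent.Helper88.EC_C.F
import Pool.Agent.Helper45.EC_C.FT
import Pool.Agent.Helper2.EC_C.POS
import Pool.Agent.Helper2.EC_C.FR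
import Pool.Agent.Helper3.EC_C.W
import Pool.Agent.Helper81.EC_C.SG
import Pool.Agent.Helper37.EC_C.N1
import Pool.Agent.Helper87.EC_C.WR
import Pool.Agent.Helper20.EC_C.BX
import Pool.Agent.Helper40.EC_C.S3N
import Pool.Agent.Helper14.EC_C.S3S
import Pool.Agent.Helper87.EC_C.S3

/-!
# MP_ecc237_nt (S18871): PART C, assembly
-/

set_option autoImplicit false

namespace ECC.Final

open EC237

theorem ram : G_RAM := PkRAM.ram
theorem k1 : G_K1 := PkK1.k1 ram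
theorem k2 : G_K2 := PkK2b.k2 ram
theorem k3 : G_K3 := PkK3.k3 ram
theorem k4 : G_K4 := PkK4.k4 ram
theorem k5 : G_K5 := PkK5.k5 ram
theorem k6 : G_K6 := PkK6.k6 ram
theorem par : G_PAR := PkPAR.par
theorem mon : G_MON := PkMON.mon k1
theorem b2 : G_B2 := PkB2.b2 k1 k2 k3 k4
theorem c18 : G_C18 := PkC18.c18 par mon b2
theorem b1 : G_B1 := PkB1.b1 par b2 c18
theorem e2t : G_E2T := PkE2T.e2t
theorem e4t : G_E4T := PkE4T.e4t
theorem at_ : G_AT := PkAT.at_ e2t k1 mon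
theorem xt : G_XT := PkXT.xt
theorem x_ : G_X := PkX.x_ at_ xt b1 b2 par c18
theorem e4_ : G_E4 := PkE4.e4_ k1 k3 k5 k6
theorem th : G_TH := PkTH.th k1 k2 k3 k5 b1 b2 e4_
theorem eta_ : G_ETA := PkETA.eta_
theorem f_ : G_F := PkF.f_ th eta_
theorem ft : G_FT := PkFT.ft f_ at_
theorem pos : G_POS := PkPOS.pos par mon c18 at_
theorem w_ : G_W := PkW.w_ th pos
theorem fr : G_FR := PkFR.fr par at_ pos
theorem sg_ : G_SG := PkSG.sg_ th w_
theorem n1_ : G_N1 := PkN1.n1_ x_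
theorem rv : G_RV := PkRV.rv
theorem rho_ : G_RHO := PkRHO.rho_
theorem wr : G_WR := PkWR.wr rho_ th pos w_
theorem bx : G_BX := PkBX.bx rv rho_ wr sg_ n1_ pos w_

/-- PART C: (S3n) -/
theorem s3n : S3n := PkS3N.s3n xt par n1_
/-- PART C: (S3d) -/
theorem s3d : S3d := PkS3N.s3d xt par
/-- PART C: (S3s) -/
theorem s3s : S3s := PkS3S.s3s fr w_ sg_
/-- PART C: (S3) -/
theorem s3 : S3 := PkS3.s3 bx sg_ w_ pos n1_ s3s

theorem c10 : EC237.C10 := ECC.c10 x_ b1 e4_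
theorem c11a : EC237.C11a := ECC.c11a x_
theorem c11b : EC237.C11b := ECC.c11b x_
theorem c17 : EC237.C17 := ECC.c17 f_
theorem c18F : EC237.C18 := ECC.c18' c18
theorem c20a : EC237.C20a := ECC.c20a at_
theorem c20x : EC237.C20x := ECC.c20x xt
theorem c20f : EC237.C20f := ECC.c20f ft
theorem ce4 : EC237.CE4 := ECC.ce4 e4t

end ECC.Final
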