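import Pool.Agent.Helper2.EC_C.Defs

/-!
# MP_ecc237_nt (S18871), PART C (modular package): goals
-/

set_option autoImplicit false

open MeasureTheory Filter Topology Set

namespace ECC

open EC237

/-! ### The general lemma -/

/-- For even `g` of polynomial growth and `u_n = q^n/(1-q^n)`:
`Σ_{a,b≥1} (g(a-b) - g(a+b)) u_a u_b = g(0) Σ u_n² + Σ_n (2 g(n) u_n² - (n-1) g(n) u_n
 - 2 u_n Σ_{0<k<n} g(k))`, in terms of Lambert series, for separable kernels. -/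
def G_RAM : Prop := ∀ (g : ℤ → ℝ) (m : ℕ) (α β : ℕ → ℤ → ℝ) (C : ℝ) (k : ℕ),
  (∀ n, g (-n) = g n) → (∀ n, |g n| ≤ C * (|(n:ℝ)| + 1) ^ k) →
  (∀ i n, |α i n| ≤ C * (|(n:ℝ)| + 1) ^ k) → (∀ i n, |β i n| ≤ C * (|(n:ℝ)| + 1) ^ k) →
  (∀ a b : ℤ, 0 < a → 0 < b → g (a - b) - g (a + b) = ∑ i ∈ Finset.range m, α i a * β i b) →
  ∀ q : ℝ, |q| < 1 →
    ∑ i ∈ Finset.range m, LS (fun M _ => α i (M:ℤ)) q * LS (fun M _ => β i (M:ℤ)) q =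
      g 0 * (LS (fun _ ν => (ν:ℝ)) q - LS (fun _ _ => 1) q) + 2 * LS (fun M ν => (ν:ℝ) * g (M:ℤ)) q
        - LS (fun M _ => ((M:ℝ) + 1) * g (M:ℤ)) q
        - 2 * LS (fun M _ => ∑ j ∈ Finset.Ico 1 M, g (j:ℤ)) q

/-! ### The six applications -/

def G_K1 : Prop := ∀ q : ℝ, |q| < 1 → aS q ^ 2 = 1 + 12 * GS q - 36 * GS (q ^ 3)

def G_K2 : Prop := ∀ q : ℝ, |q| < 1 →
  (aS q + 2 * aS (q ^ 2)) ^ 2 = 9 + 36 * GS q + 36 * GS (q ^ 3) - 288 * GS (q ^ 6)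

def G_K3 : Prop := ∀ q : ℝ, |q| < 1 →
  aT q = aS q * (GS q - 9 * GS (q ^ 3)) + (aS q - bS q) / 3

def G_K4 : Prop := ∀ q : ℝ, |q| < 1 →
  (aT q + 4 * aT (q ^ 2)) / 3 = (1 - bS q) / 9 + 8 * (1 - bS (q ^ 2)) / 9
    + (aS q + 2 * aS (q ^ 2) - 3) / 3
    - (aS q + 2 * aS (q ^ 2)) / 3 *
      (GS q - 4 * GS (q ^ 2) - 9 * GS (q ^ 3) + 36 * GS (q ^ 6))

def G_K5 : Prop := ∀ q : ℝ, |q| < 1 → GT q = 5 / 6 * HS q + 1 / 6 * GS q - 2 * GS q ^ 2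

def G_K6 : Prop := ∀ q : ℝ, |q| < 1 →
  (1 - bS q) * (aS q - 1) / 18 - 4 * (-1 / 2 * GS q + 9 / 2 * GS (q ^ 3)) ^ 2 =
    -GT q + 27 * GT (q ^ 3) + 1 / 2 * HS q - 81 / 2 * HS (q ^ 3) + (aS q - 1) / 18
      - 4 / 3 * (-1 / 2 * GS q + 9 / 2 * GS (q ^ 3)) - (1 - bS q) / 18

/-! ### Algebra of the level 6 functions -/

/-- `a` is continuous and strictly increasing on `[0,1)`, and at least `1`. -/
def G_MON : Prop := StrictMonoOn aS (Ico 0 1) ∧ ∀ q ∈ Ico (0:ℝ) 1, 1 ≤ aS q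

/-- behaviour under `q ↦ -q` -/
def G_PAR : Prop := ∀ q : ℝ, |q| < 1 →
  aS (-q) = 2 * aS (q ^ 4) - aS q ∧
  bS (-q) = -bS q - 6 * bS (q ^ 2) + 8 * bS (q ^ 4) ∧
  XS (-q) = -XS q + 6 * XS (q ^ 2) + 8 * XS (q ^ 4) ∧
  GS (-q) = -GS q + 6 * GS (q ^ 2) - 4 * GS (q ^ 4)

/-- `b3(q²) = A B²` -/
def G_B2 : Prop := ∀ q : ℝ, |q| < 1 → bS (q ^ 2) = AA q * BB q ^ 2

/-- (18) -/
def G_C18 : Prop := ∀ q : ℝ, |q| < 1 →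
  (aS q - aS (q ^ 4)) ^ 2 = 3 * (aS (q ^ 2) ^ 2 - aS (q ^ 4) ^ 2)

/-- `b3(q) = A² B` -/
def G_B1 : Prop := ∀ q : ℝ, |q| < 1 → bS q = AA q ^ 2 * BB q

/-- (11) -/
def G_X : Prop := ∀ q : ℝ, |q| < 1 →
  54 * XS q = (aS q + 2 * aS (q ^ 2)) ^ 2 * (aS q - aS (q ^ 2)) ∧
  108 * XS (q ^ 2) = (aS q + 2 * aS (q ^ 2)) * (aS q - aS (q ^ 2)) ^ 2

/-- (9), (10) -/
def G_E4 : Prop := ∀ q : ℝ, |q| < 1 →
  ES q = 9 * aS q ^ 4 - 8 * aS q * bS q ∧ ES (q ^ 3) = (aS q ^ 4 + 8 * aS q * bS q) / 9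

/-- (12) and the relations between `E2(q^k)` -/
def G_TH : Prop := ∀ q : ℝ, |q| < 1 →
  12 * aT q = aS q * PS q + 3 * aS q ^ 3 - 4 * (AA q ^ 2 * BB q) ∧
  24 * aT (q ^ 2) = aS (q ^ 2) * (PS q + aS q ^ 2 + 2 * aS q * aS (q ^ 2) - 2 * aS (q ^ 2) ^ 2)
    + 6 * aS (q ^ 2) ^ 3 - 8 * (AA q * BB q ^ 2) ∧
  -288 * GT q = PS q ^ 2 - (9 * aS q ^ 4 - 8 * aS q * (AA q ^ 2 * BB q)) ∧
  AA q * CC q = 1 - 4 * GS q + 16 * GS (q ^ 2) + 12 * GS (q ^ 3) - 48 * GS (q ^ 6) ∧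
  PS (q ^ 2) = (PS q + aS q ^ 2 + 2 * aS q * aS (q ^ 2) - 2 * aS (q ^ 2) ^ 2) / 2 ∧
  PS (q ^ 3) = (2 * aS q ^ 2 + PS q) / 3 ∧
  PS (q ^ 6) = (2 * aS (q ^ 2) ^ 2 + PS (q ^ 2)) / 3

/-! ### Transformations -/

def G_E2T : Prop := ∀ t : ℝ, 0 < t →
  PS (Real.exp (-(2 * Real.pi / t))) =
    -(t ^ 2) * PS (Real.exp (-(2 * Real.pi * t))) + 6 * t / Real.pi

def G_E4T : Prop := ∀ t : ℝ, 0 < t →
  ES (Real.exp (-(2 * Real.pi / t))) = t ^ 4 * ES (Real.exp (-(2 * Real.pi * t)))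

def G_AT : Prop := ∀ t : ℝ, 0 < t →
  aS (Real.exp (-(2 * Real.pi / (3 * t)))) = Real.sqrt 3 * t * aS (Real.exp (-(2 * Real.pi * t)))

def G_XT : Prop := ∀ t : ℝ, 0 < t →
  XS (Real.exp (-(2 * Real.pi / (3 * t)))) =
    t ^ 3 * bS (Real.exp (-(2 * Real.pi * t))) / (3 * Real.sqrt 3)

/-! ### The eta product -/

def G_F : Prop := ∀ y : ℝ, 0 < y →
  ff y = AA (Real.exp (-(2 * Real.pi * y))) * BB (Real.exp (-(2 * Real.pi * y))) *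
    CC (Real.exp (-(2 * Real.pi * y))) * DD (Real.exp (-(2 * Real.pi * y)))

def G_FT : Prop := ∀ y : ℝ, 0 < y → ff (1 / (6 * y)) = 36 * y ^ 4 * ff y

/-- the eta product satisfies the logarithmic differential equation -/
def G_ETA : Prop := ∀ y : ℝ, 0 < y → 0 < ff y ∧
  HasDerivAt ff (-(2 * Real.pi) * ff y *
    ((PS (Real.exp (-(2 * Real.pi * y))) + 2 * PS (Real.exp (-(2 * Real.pi * y)) ^ 2)
      + 3 * PS (Real.exp (-(2 * Real.pi * y)) ^ 3)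
      + 6 * PS (Real.exp (-(2 * Real.pi * y)) ^ 6)) / 12)) y ∧
  Tendsto (fun y => ff y * Real.exp (2 * Real.pi * y)) atTop (𝓝 1)

/-! ### The functions on the line `q = -e^{-πy}` -/

/-- positivity at `q = -e^{-πy}` -/
def G_POS : Prop := ∀ y : ℝ, 0 < y →
  0 < AA (Qn y) ∧ 0 < BB (Qn y) ∧ 0 < CC (Qn y) ∧ DD (Qn y) < 0

/-- `w' = -π A C w`, `w = 9 e^{-πy}(1+O(e^{-πy}))` -/
def G_W : Prop := (∀ y : ℝ, 0 < y → 0 < ww y ∧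
    HasDerivAt ww (-Real.pi * (AA (Qn y) * CC (Qn y)) * ww y) y) ∧
  ∃ C : ℝ, ∀ y : ℝ, 1 / 3 ≤ y →
    |Real.log (ww y) - (Real.log 9 - Real.pi * y)| ≤ C * Real.exp (-(Real.pi * y))

/-- `w(y) w(1/(3y)) = 9` -/
def G_FR : Prop := ∀ y : ℝ, 0 < y → ww y * ww (1 / (3 * y)) = 9

/-- `σ' = (π²/4) A C`, `x(y)² = w(y)` -/
def G_SG : Prop := ∀ y : ℝ, 0 < y →
  sgp y = Real.pi ^ 2 / 4 * (AA (Qn y) * CC (Qn y)) ∧ HasDerivAt sg (sgp y) y ∧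
  Real.exp (-(4 / Real.pi) * sg y) = ww y

/-- `D1 = -π³ A C Dd`, `n1' = D1`, `n1 = O(e^{-πy})` -/
def G_N1 : Prop := (∀ y : ℝ, 0 < y →
    D1 y = -Real.pi ^ 3 * (AA (Qn y) * CC (Qn y) * DD (Qn y)) ∧ HasDerivAt n1 (D1 y) y) ∧
  ∀ ε : ℝ, 0 < ε → ∃ C : ℝ, ∀ y : ℝ, ε ≤ y → |n1 y| ≤ C * Real.exp (-(Real.pi * y))

/-! ### The function `r` -/

/-- `r(x) = ρ(x²)` -/
def G_RV : Prop := ∀ x : ℝ, rr x = rho (x ^ 2)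

/-- the differential equation of `ρ` -/
def G_RHO : Prop :=
  (∀ w : ℝ, 0 < w → HasDerivAt rho (rho1 w) w) ∧
  (∀ w : ℝ, 0 < w →
    HasDerivAt (fun w : ℝ => w * (w + 1) * (w + 9) * rho1 w) (-((w + 3) * rho w)) w) ∧
  (∀ w : ℝ, 0 ≤ w → |rho1 w| ≤ 1 + w) ∧
  ContinuousOn rho (Ici 0) ∧ rho 0 = Real.pi / (3 * Real.sqrt 3)

/-- `r(x(y)) = (π/(3√3)) B(-Q)` -/
def G_WR : Prop := ∀ y : ℝ, 0 < y →
  rho (ww y) = Real.pi / (3 * Real.sqrt 3) * BB (Qn y)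

/-- `b(x(y)) = -(√3/(2π)) n1(y)` -/
def G_BX : Prop := ∀ y : ℝ, 0 < y →
  bb (xx y) = -(Real.sqrt 3 / (2 * Real.pi)) * n1 y

end ECC
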